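import Pool.Agent.H487.GP.Stm
import Pool.Agent.H477.Jen.Four

set_option autoImplicit false

/-!
Project GP of helper487, `S_RE`: the real zeros of `f^(k)` near a good point, in terms of the
argument of `f(x - ir)`.
-/

open Complex

namespace Pool.Agent.H82.GP

open Pool.Agent.H477.Jen
open Pool.Agent.H477.E
open Pool.Agent.H487.GA
open Pool.Agent.H487.GP

theorem wk_norm (k : ℕ) : ‖wk k‖ = 1 := by
  unfold wk
  split_ifs <;> simp

theorem wk_iff (k : ℕ) (z : ℂ) (h : z + (-1) ^ k * (starRingEnd ℂ) z = 0) :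
    (wk k * z).re = 0 := by
  unfold wk
  split_ifs with he
  · rw [he.neg_one_pow, one_mul, add_conj] at h
    rw [one_mul]
    have h2 : 2 * z.re = 0 := by exact_mod_cast h
    linarith
  · have ho := Nat.not_even_iff_odd.1 he
    rw [ho.neg_one_pow, neg_one_mul, ← sub_eq_add_neg, sub_conj] at h
    have h1 : (I * z).re = -z.im := by simp
    rw [h1]
    have h3 : ((2 * z.im : ℝ) : ℂ) = 0 := by
      rcases mul_eq_zero.1 h with h4 | h4
      · exact h4
      · exact absurd h4 I_ne_zero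
    have h4 : 2 * z.im = 0 := by exact_mod_cast h3
    linarith

/-- **S_RE.** -/
theorem re_proof : S_PREC → S_RE := by
  intro hprec J ε hJ hε
  obtain ⟨η, hη0, hη1, k1, hk1⟩ := hprec J ε hJ hε
  refine ⟨η, hη0, hη1, max k1 160, ?_⟩
  intro f hf hreal k hk lam t hlam hkl hLG hball
  obtain ⟨hA, hcomp⟩ := hk1 f hf k ((le_max_left _ _).trans hk) lam t hlam hkl hLG hball
  refine ⟨hA, ?_⟩
  intro x hx hx0
  have hk160 : (160 : ℝ) ≤ k := by exact_mod_cast (le_max_right k1 160).trans hk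
  have hk0 : (0 : ℝ) < k := by linarith
  have hc : ‖(x : ℂ) - t‖ ≤ k / lam / 8 := by
    rw [← ofReal_sub, norm_real, Real.norm_eq_abs]
    refine hx.trans ?_
    rw [div_div, mul_comm, ← div_div]
    exact div_le_div_of_nonneg_right (by linarith) hlam.le
  have h1 := hcomp x hc
  obtain ⟨r, hrdef⟩ : ∃ r : ℝ, r = k / lam := ⟨_, rfl⟩
  have hr0 : 0 < r := by rw [hrdef]; positivity
  rw [← hrdef] at h1 ⊢
  have huc : (starRingEnd ℂ) (-(I * (r : ℂ))) = -(-(I * (r : ℂ))) := by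
    rw [map_neg, map_mul, conj_I, conj_ofReal]
    ring
  have hun : -(I * (r : ℂ)) ≠ 0 := by
    rw [neg_ne_zero]
    exact mul_ne_zero I_ne_zero (by exact_mod_cast hr0.ne')
  have h2 := half_decomp hf hreal huc k (x : ℂ)
  rw [conj_ofReal, hx0, mul_zero, zero_div, mul_zero] at h2
  have h3 := wk_iff k _ h2.symm
  obtain ⟨P, hP⟩ : ∃ P : ℂ, P = half f (-(I * (r : ℂ))) k x := ⟨_, rfl⟩
  rw [← hP] at h1 h3
  obtain ⟨Q, hQ⟩ : ∃ Q : ℂ, Q = f ((x : ℂ) - I * (r : ℂ)) := ⟨_, rfl⟩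
  rw [← hQ] at h1 ⊢
  have h4 : (wk k * AA k * Q).re = -(wk k * (P - AA k * Q)).re := by
    rw [mul_sub, sub_re, h3, zero_sub, neg_neg, mul_assoc]
  rw [h4, abs_neg]
  refine (abs_re_le_norm _).trans ?_
  rw [norm_mul, wk_norm, one_mul]
  exact h1

end Pool.Agent.H82.GP
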